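import Pool.Agent.K4H77.DL

set_option autoImplicit false

/-!
# Shanks' conjecture for randomly displaced primes

Move every prime `p`, independently of the others, to a uniformly distributed random integer of
`[p - w(p), p + w(p)]`, and let `S` be the set of the new positions.  For a set `S` of natural numbers
let `p_S(g)` (`firstAfter S g`) be the first element of `S` that follows a run of at least `g`
consecutive integers between two consecutive elements of `S`; for the set of the primes this is the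
number `p(g)` of Shanks' conjecture `log p(g) ∼ √g`.

* If `w` is regular and `w(n) ≥ n / (log n)^A` for some `A` then almost surely `log p_S(g) ∼ √g`.
* If `w` is regular and `w(n) ≥ n^{1-δ}` then `log p_S(g)` has the exact order `√g`.
* If `w(n) / (log n)^2 → ∞` and `w(n) = o(n)` then almost surely
  `limsup (log p_S(g))^2 / g ≤ 1`.
* If `w(n) ∼ lam (log n)^2`, `lam > 0`, then almost surely `log p_S(g) = O(√g)`, which is open for the
  primes, and `limsup (log p_S(g))^2 / g < 1` for `lam ≥ 7`, so that the prediction of Shanks is false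
  for these sets; the limsup is at most `e^γ / 2 + o(1)` as `lam → ∞`.
-/

namespace Pool.Agent.Results.MP_926cc3_nt.DisplacedFirstOccurrence

open MeasureTheory Filter
open Pool.Agent.K4H77.Noise (firstAfter)
open Pool.Agent.K4H77.Displ
open scoped Topology

/-- the displaced primes exist (this is not part of `result`) -/
theorem exist (w : ℕ → ℕ) (hw : ∀ n, 4 * w n ≤ n) :
    ∃ (Ω : Type) (_ : MeasurableSpace Ω) (P : Measure Ω) (_ : IsProbabilityMeasure P)
      (X : ℕ → Ω → ℕ), Displaced w P X := exists_displaced hw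

/-- Let `S` be the set of the primes displaced with range `w`, where `4 w(n) ≤ n`, and let `p_S(g)` be
the first element of `S` after a run of at least `g` integers between consecutive elements of `S`.
Almost surely `S` is infinite, and

(a) if `w(n) / (log n)^2 → lam > 0` then `p_S(g)` exists and `(log p_S(g))^2 ≤ D g` for all large `g`,
with a number `D` that depends on `w` only and is smaller than `1` if `lam ≥ 7`;

(b) for every `D > e^γ / 2` there is `lam₀` such that `(log p_S(g))^2 ≤ D g` for all large `g` if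
`w(n) / (log n)^2 → lam ≥ lam₀`;

(c) if `w(n) / (log n)^2 → ∞` and `w(n) / n → 0` then, for every `D > 1`, `(log p_S(g))^2 ≤ D g` for
all large `g`;

(d) if `w` is regular and `w(n) ≥ n^{1-δ}` for large `n` then moreover `(log p_S(g))^2 ≥ a g` for all
large `g` (`δ > 0` and `a > 0` are absolute);

(e) if `w` is regular and `w(n) ≥ n / (log n)^A` for large `n`, for some `A`, then
`log p_S(g) ∼ √g`. -/
theorem result :
    (∀ (w : ℕ → ℕ) (lam : ℝ), (∀ n, 4 * w n ≤ n) → 0 < lam →
      Tendsto (fun n : ℕ => (w n : ℝ) / (Real.log n) ^ 2) atTop (𝓝 lam) →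
      ∃ D : ℝ, (7 ≤ lam → D < 1) ∧ AlmostSurelySet w (fun S => FirstLe S D)) ∧
    (∀ D : ℝ, Real.exp Real.eulerMascheroniConstant / 2 < D → ∃ lam₀ : ℝ,
      ∀ (w : ℕ → ℕ) (lam : ℝ), (∀ n, 4 * w n ≤ n) → lam₀ ≤ lam →
        Tendsto (fun n : ℕ => (w n : ℝ) / (Real.log n) ^ 2) atTop (𝓝 lam) →
        AlmostSurelySet w (fun S => FirstLe S D)) ∧
    (∀ w : ℕ → ℕ, (∀ n, 4 * w n ≤ n) → Tendsto (fun n : ℕ => (w n : ℝ) / n) atTop (𝓝 0) →
      Tendsto (fun n : ℕ => (w n : ℝ) / (Real.log n) ^ 2) atTop atTop →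
      AlmostSurelySet w (fun S => ∀ D : ℝ, 1 < D → FirstLe S D)) ∧
    (∃ δ a : ℝ, 0 < δ ∧ 0 < a ∧ ∀ w : ℕ → ℕ, (∀ n, 4 * w n ≤ n) → Regular w →
      (∀ᶠ n : ℕ in atTop, (n : ℝ) ^ (1 - δ) ≤ w n) →
      AlmostSurelySet w (fun S => ∀ᶠ g : ℕ in atTop, a ≤ (Real.log (firstAfter S g)) ^ 2 / g)) ∧
    (∀ (w : ℕ → ℕ) (A : ℕ), (∀ n, 4 * w n ≤ n) → Regular w →
      (∀ᶠ n : ℕ in atTop, (n : ℝ) / (Real.log n) ^ A ≤ w n) →
      AlmostSurelySet w (fun S => Tendsto (fun g : ℕ => Real.log (firstAfter S g) / Real.sqrt g)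
        atTop (𝓝 1))) :=
  ⟨fun w lam hw hlam hlim => fo_a hw hlam hlim, fun D hD => fo_b hD,
    fun w hw h1 h2 => fo_c hw h1 h2, fo_d, fun w A hw h1 h2 => fo_e hw h1 h2⟩

end Pool.Agent.Results.MP_926cc3_nt.DisplacedFirstOccurrence
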