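import Mathlib
import Pool.Agent.K4H19.GX.D

set_option autoImplicit false

/-!
# The exact law of the first occurrence of a gap in the random models with a sieve

Granville's refinement of Cramér's model with sieve levels `T j = o (j)` (that is, integers of size
`x` are sieved up to `o (log x)`): almost surely `log p_S(g) ∼ ψ(g)`, where the deterministic scale
`ψ` is given by the least number of integers without small prime factors among `g` consecutive
integers (the extremal problem of the interval sieve).
-/

open MeasureTheory ProbabilityTheory Filter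
open scoped Topology

namespace Pool.Agent.Results.MP_926cc3_nt.FirstOccurrenceLaw

/-- The primes up to `t`. -/
def primesUpTo (t : ℕ) : Finset ℕ := (Finset.Icc 1 t).filter Nat.Prime

/-- The density `∏_{p ≤ t} (1 - 1 / p)` of the integers without prime factors up to `t`. -/
noncomputable def density (t : ℕ) : ℝ := ∏ p ∈ primesUpTo t, (1 - 1 / (p : ℝ))

/-- The probability that `n` is selected. The level of the sieve is `T j` for
`2 ^ j ≤ n < 2 ^ (j + 1)`. -/
noncomputable def prob (T : ℕ → ℕ) (n : ℕ) : ℝ :=
  if ∀ p ∈ primesUpTo (T (Nat.log 2 n)), ¬ p ∣ n then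
    min 1 (1 / (density (T (Nat.log 2 n)) * Real.log n)) else 0

/-- The random model: independent events `A n` (the integer `n` is selected) of probability
`prob T n`. -/
structure Model (T : ℕ → ℕ) {Ω : Type} [MeasurableSpace Ω] (P : Measure Ω) (A : ℕ → Set Ω) : Prop where
  meas : ∀ n, MeasurableSet (A n)
  indep : iIndepSet A P
  prob : ∀ n, P (A n) = ENNReal.ofReal (prob T n)

/-- The random set `S = {n : ω ∈ A n}` has the property `Q` almost surely, in every model of the
level `T`. -/
def AlmostSurely (T : ℕ → ℕ) (Q : Set ℕ → Prop) : Prop :=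
  ∀ (Ω : Type) (_ : MeasurableSpace Ω) (P : Measure Ω) (_ : IsProbabilityMeasure P) (A : ℕ → Set Ω),
    Model T P A → ∀ᵐ ω ∂P, Q {n | ω ∈ A n}

/-- A run of at least `g` integers between two consecutive elements of `S` exists. -/
def Occurs (S : Set ℕ) (g : ℕ) : Prop := ∃ k : ℕ, Nat.nth (· ∈ S) k + g < Nat.nth (· ∈ S) (k + 1)

/-- The first element of `S` that follows a run of at least `g` consecutive integers between two
consecutive elements of `S` (for the set of the primes: the `p(g)` of the problem). -/
noncomputable def firstAfter (S : Set ℕ) (g : ℕ) : ℕ :=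
  sInf {m : ℕ | ∃ k : ℕ, m = Nat.nth (· ∈ S) (k + 1) ∧ Nat.nth (· ∈ S) k + g < m}

/-- The number of integers in `(a, a + g]` without prime factors up to `t`. -/
def survivors (t a g : ℕ) : ℕ := ((Finset.Ioc a (a + g)).filter (fun n => ∀ p ∈ primesUpTo t, ¬ p ∣ n)).card

/-- The least number of integers without prime factors up to `t` among `g` consecutive integers. -/
noncomputable def leastSurvivors (t g : ℕ) : ℕ := sInf (Set.range fun a => survivors t a g)

/-- The scale `ψ(g) = min_j max (log (2 ^ j), √(leastSurvivors (T j) g / density (T j)))`. -/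
noncomputable def scale (T : ℕ → ℕ) (g : ℕ) : ℝ :=
  ⨅ j : ℕ, max ((j : ℝ) * Real.log 2) (Real.sqrt (leastSurvivors (T j) g / density (T j)))

/-- **The law of the first occurrence.** For every level `T` a model exists. Let `T` be
non-decreasing with `T j / j → 0`. Almost surely `S` is infinite, all large run lengths `g` occur
and `log p_S(g) ∼ ψ(g)`. -/
theorem result :
    (∀ T : ℕ → ℕ, ∃ (P : Measure (ℕ → Bool)) (_ : IsProbabilityMeasure P) (A : ℕ → Set (ℕ → Bool)), Model T P A) ∧
    ∀ T : ℕ → ℕ, Monotone T → Tendsto (fun j : ℕ => (T j : ℝ) / j) atTop (𝓝 0) →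
      AlmostSurely T (fun S => S.Infinite ∧ (∀ᶠ g : ℕ in atTop, Occurs S g) ∧
        Tendsto (fun g : ℕ => Real.log (firstAfter S g) / scale T g) atTop (𝓝 1)) := by
  refine ⟨fun T => ?_, ?_⟩
  · obtain ⟨P, hP, A, hA⟩ := Pool.Agent.K4H19.GM.exists_granville T
    exact ⟨P, hP, A, hA.meas, hA.indep, hA.prob⟩
  · intro T hmono hT Ω _ P _ A hA
    have h := Pool.Agent.K4H19.GX.ae_law (T := T) hT hmono P (A := A) ⟨hA.meas, hA.indep, hA.prob⟩
    filter_upwards [h] with ω hω
    exact hω

end Pool.Agent.Results.MP_926cc3_nt.FirstOccurrenceLaw
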