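import Pool.Agent.K4H77.SB

set_option autoImplicit false

/-!
# Shanks' conjecture for random perturbations of the primes

Delete every prime, independently of the others, with probability `q`, and afterwards insert every
natural number `n`, independently, with probability `min(1, κ / log n)`.  For `κ = 0` this is a
random subset of the primes, for `q = 1` all primes are deleted and the random set is Cramér's
model (for `κ = 1`).  The primes themselves are the case `q = 0`, `κ = 0`, which is not allowed.

For a set `S` of natural numbers let `p_S(g)` (`firstAfter S g`) be the first element of `S` that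
follows a run of at least `g` consecutive integers between two consecutive elements of `S`; for the
set of the primes this is the number `p(g)` of Shanks' conjecture.  The theorem shows that for almost
every perturbation `p_S(g) ≤ exp (C √g)`, the order of magnitude of Shanks' conjecture, which is open
for the primes themselves (the best known bound is `log p(g) = O(g (log₂ g)² / ((log g)² log₃ g))`), and that
`log p_S(g)` has the exact order `√g` if numbers are inserted (`κ > 0`).
-/

namespace Pool.Agent.Results.MP_926cc3_nt.RandomFirstOccurrence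

open MeasureTheory Filter
open Pool.Agent.K4H77.Noise
open scoped Topology

/-- the random sets of the theorem exist (this is not part of `result`) -/
theorem exist (q κ : ℝ) (hq0 : 0 < q) (hq1 : q ≤ 1) (hκ : 0 ≤ κ) :
    ∃ (P : Measure (ℕ → Bool)) (_ : IsProbabilityMeasure P) (A : ℕ → Set (ℕ → Bool)),
      Perturbed (fun _ => -Real.log q) κ P A :=
  exists_perturbed (fun _ => neg_nonneg.2 (Real.log_nonpos hq0.le hq1)) hκ

/-- Let `A n` be the event that `n` belongs to the perturbed set of primes: a prime is deleted with
probability `q`, then each `n` is inserted with probability `min(1, κ / log n)`, everything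
independently.  Here `0 < q ≤ 1`, `κ ≥ 0`, and `q < 1` or `κ > 0`.  Then

(a) almost surely the random set `S` is infinite, `p_S(g)` exists for all large `g`, and
`κ ≤ liminf (log p_S(g))^2 / g`, `limsup (log p_S(g))^2 / g ≤ κ + (e^γ / 2) log (1 / q)`;

(b) if `κ = 0` and `4 / 5 ≤ q < 1`, then almost surely `limsup (log p_S(g))^2 / g < 1 - q`: for almost
every random subset of the primes of this relative density `1 - q` the prediction
`log p_S(g) ∼ √((1 - q) g)`, which is Shanks' conjecture for `q = 0`, is false;

(c) if `q = 1` (Cramér's model, for `κ = 1`) then almost surely `log p_S(g) ∼ √(κ g)`. -/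
theorem result (Ω : Type) [MeasurableSpace Ω] (P : Measure Ω) [IsProbabilityMeasure P]
    (A : ℕ → Set Ω) (q κ : ℝ) (hq0 : 0 < q) (hq1 : q ≤ 1) (hκ : 0 ≤ κ) (hpos : q < 1 ∨ 0 < κ)
    (hA : Perturbed (fun _ => -Real.log q) κ P A) :
    (∀ᵐ ω ∂P, (rset A ω).Infinite ∧ ∀ ε : ℝ, 0 < ε → ∀ᶠ g : ℕ in atTop,
      (∃ k : ℕ, Nat.nth (· ∈ rset A ω) k + g < Nat.nth (· ∈ rset A ω) (k + 1)) ∧
      κ - ε ≤ (Real.log (firstAfter (rset A ω) g)) ^ 2 / g ∧
      (Real.log (firstAfter (rset A ω) g)) ^ 2 / g ≤
        κ + Real.exp Real.eulerMascheroniConstant / 2 * Real.log (1 / q) + ε) ∧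
    (κ = 0 → 4 / 5 ≤ q → ∃ c : ℝ, c < 1 - q ∧ ∀ᵐ ω ∂P, ∀ᶠ g : ℕ in atTop,
      (Real.log (firstAfter (rset A ω) g)) ^ 2 / g ≤ c) ∧
    (q = 1 → ∀ᵐ ω ∂P, Tendsto (fun g : ℕ => Real.log (firstAfter (rset A ω) g) / Real.sqrt g)
      atTop (𝓝 (Real.sqrt κ))) := by
  have hlam : 0 ≤ -Real.log q := neg_nonneg.2 (Real.log_nonpos hq0.le hq1)
  have h : 0 < -Real.log q ∨ 0 < κ := by
    rcases hpos with h | h
    · exact Or.inl (neg_pos.2 (Real.log_neg hq0 h))
    · exact Or.inr h
  have hcost : cost (-Real.log q) κ =
      κ + Real.exp Real.eulerMascheroniConstant / 2 * Real.log (1 / q) := by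
    unfold cost
    rw [one_div, Real.log_inv]
  have main := first_main hlam hκ h P hA
  refine ⟨?_, ?_, ?_⟩
  · rw [← hcost]
    exact main
  · rintro rfl hq
    have hq1' : q < 1 := by
      rcases hpos with h | h
      · exact h
      · exact absurd h (lt_irrefl 0)
    have h4 := cost_lt (neg_pos.2 (Real.log_neg hq0 hq1')) (by rw [neg_neg, Real.exp_log hq0]; exact hq)
    rw [neg_neg, Real.exp_log hq0] at h4
    obtain ⟨c, hc1, hc2⟩ := exists_between h4
    refine ⟨c, hc2, ?_⟩
    filter_upwards [main] with ω hω
    filter_upwards [hω.2 (c - cost (-Real.log q) 0) (by linarith)] with g hg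
    linarith [hg.2.2]
  · rintro rfl
    have hcost1 : cost (-Real.log 1) κ = κ := by
      unfold cost
      simp
    rw [hcost1] at main
    filter_upwards [main] with ω hω
    have h1 : Tendsto (fun g : ℕ => (Real.log (firstAfter (rset A ω) g)) ^ 2 / g) atTop (𝓝 κ) := by
      rw [Metric.tendsto_atTop]
      intro ε hε
      obtain ⟨N, hN⟩ := eventually_atTop.1 (hω.2 (ε / 2) (by positivity))
      refine ⟨N, fun n hn => ?_⟩
      have h2 := hN n hn
      rw [Real.dist_eq, abs_lt]
      constructor <;> linarith [h2.2.1, h2.2.2]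
    have h2 := h1.sqrt
    refine h2.congr fun g => ?_
    rw [Real.sqrt_div (by positivity), Real.sqrt_sq (Real.log_natCast_nonneg _)]

end Pool.Agent.Results.MP_926cc3_nt.RandomFirstOccurrence
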