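import Mathlib
import Pool.Agent.K4H19.GM.Fin

set_option autoImplicit false

/-!
# Shanks' conjecture in the random models with a sieve: an exact criterion

Cramér's random model of the primes is refined by a sieve (Granville): for `2 ^ j ≤ n < 2 ^ (j + 1)`
the integer `n` is selected only if it has no prime factor `≤ T j`, and then with the probability
`∏_{p ≤ T j} (1 - 1 / p)⁻¹ / log n`, independently. For arbitrary levels `T j` with
`log (T j) / j → 0` the analogue `log p(g) ∼ √g` of Shanks' conjecture holds almost surely if and only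
if `log (T j) / log j → 0`.
-/

open MeasureTheory ProbabilityTheory Filter
open scoped Topology

namespace Pool.Agent.Results.MP_926cc3_nt.SievedRandomModels

/-- The primes up to `t`. -/
def primesUpTo (t : ℕ) : Finset ℕ := (Finset.Icc 1 t).filter Nat.Prime

/-- The density `∏_{p ≤ t} (1 - 1 / p)` of the integers without prime factors up to `t`. -/
noncomputable def density (t : ℕ) : ℝ := ∏ p ∈ primesUpTo t, (1 - 1 / (p : ℝ))

/-- The probability that `n` is selected. The level of the sieve is `T j` for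
`2 ^ j ≤ n < 2 ^ (j + 1)`. -/
noncomputable def prob (T : ℕ → ℕ) (n : ℕ) : ℝ :=
  if ∀ p ∈ primesUpTo (T (Nat.log 2 n)), ¬ p ∣ n then
    min 1 (1 / (density (T (Nat.log 2 n)) * Real.log n)) else 0

/-- The random model: independent events `A n` (the integer `n` is selected) of probability `prob T n`. -/
structure Model (T : ℕ → ℕ) {Ω : Type} [MeasurableSpace Ω] (P : Measure Ω) (A : ℕ → Set Ω) : Prop where
  meas : ∀ n, MeasurableSet (A n)
  indep : iIndepSet A P
  prob : ∀ n, P (A n) = ENNReal.ofReal (prob T n)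

/-- The random set `S = {n : ω ∈ A n}` has the property `Q` almost surely, in every model of the
level `T`. -/
def AlmostSurely (T : ℕ → ℕ) (Q : Set ℕ → Prop) : Prop :=
  ∀ (Ω : Type) (_ : MeasurableSpace Ω) (P : Measure Ω) (_ : IsProbabilityMeasure P) (A : ℕ → Set Ω),
    Model T P A → ∀ᵐ ω ∂P, Q {n | ω ∈ A n}

/-- A run of at least `g` integers between two consecutive elements of `S` exists. -/
def Occurs (S : Set ℕ) (g : ℕ) : Prop := ∃ k : ℕ, Nat.nth (· ∈ S) k + g < Nat.nth (· ∈ S) (k + 1)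

/-- The first element of `S` that follows a run of at least `g` consecutive integers between two
consecutive elements of `S` (for the set of the primes: the `p(g)` of the problem). -/
noncomputable def firstAfter (S : Set ℕ) (g : ℕ) : ℕ :=
  sInf {m : ℕ | ∃ k : ℕ, m = Nat.nth (· ∈ S) (k + 1) ∧ Nat.nth (· ∈ S) k + g < m}

/-- `log p_S(g) / √g` -/
noncomputable def ratio (S : Set ℕ) (g : ℕ) : ℝ := Real.log (firstAfter S g) / Real.sqrt g

/-- The level is subexponential in `j`: `T j = n ^ o(1)`. -/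
def Subexponential (T : ℕ → ℕ) : Prop := Tendsto (fun j : ℕ => Real.log (T j) / j) atTop (𝓝 0)

/-- `T j = j ^ o(1)`, that is, integers of size `x` are sieved up to `(log x) ^ o(1)`. -/
def Small (T : ℕ → ℕ) : Prop := Tendsto (fun j : ℕ => Real.log (T j) / Real.log j) atTop (𝓝 0)

section aux

open Pool.Agent.K4H19.GM

lemma model_iff {T : ℕ → ℕ} {Ω : Type} [MeasurableSpace Ω] {P : Measure Ω} {A : ℕ → Set Ω} (h : Model T P A) :
    Granville T P A := ⟨h.meas, h.indep, h.prob⟩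

lemma ratio_le {S : Set ℕ} {g : ℕ} {a : ℝ} (ha : 0 ≤ a) (hg : 1 ≤ g)
    (h : (Real.log (Pool.Agent.K4H77.Noise.firstAfter S g)) ^ 2 / g ≤ a ^ 2) : ratio S g ≤ a := by
  have hg0 : (0 : ℝ) < g := by exact_mod_cast hg
  have e : ratio S g = Real.log (Pool.Agent.K4H77.Noise.firstAfter S g) / Real.sqrt g := rfl
  rw [e]
  have h1 : (Real.log (Pool.Agent.K4H77.Noise.firstAfter S g) / Real.sqrt g) ^ 2 ≤ a ^ 2 := by
    rw [div_pow, Real.sq_sqrt hg0.le]
    exact h
  exact le_of_sq_le_sq h1 ha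

lemma le_ratio {S : Set ℕ} {g : ℕ} {a : ℝ} (hg : 1 ≤ g)
    (h : a ^ 2 ≤ (Real.log (Pool.Agent.K4H77.Noise.firstAfter S g)) ^ 2 / g) : a ≤ ratio S g := by
  have hg0 : (0 : ℝ) < g := by exact_mod_cast hg
  have e : ratio S g = Real.log (Pool.Agent.K4H77.Noise.firstAfter S g) / Real.sqrt g := rfl
  rw [e]
  have h1 : a ^ 2 ≤ (Real.log (Pool.Agent.K4H77.Noise.firstAfter S g) / Real.sqrt g) ^ 2 := by
    rw [div_pow, Real.sq_sqrt hg0.le]
    exact h
  have h2 : 0 ≤ Real.log (Pool.Agent.K4H77.Noise.firstAfter S g) / Real.sqrt g :=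
    div_nonneg (Real.log_natCast_nonneg _) (Real.sqrt_nonneg _)
  exact le_of_sq_le_sq h1 h2

lemma small_of_le {T : ℕ → ℕ} (h : ¬ Small T) : ∃ α : ℝ, 0 < α ∧ ∃ᶠ j : ℕ in atTop, (j : ℝ) ^ α ≤ T j := by
  by_contra hcon
  push Not at hcon
  apply h
  unfold Small
  rw [Metric.tendsto_atTop]
  intro ε hε
  have h1 := hcon (ε / 2) (by positivity)
  obtain ⟨N, hN⟩ := eventually_atTop.1 h1
  refine ⟨max N 2, fun j hj => ?_⟩
  have hj2 : 2 ≤ j := (le_max_right _ _).trans hj
  have hjr : (2 : ℝ) ≤ j := by exact_mod_cast hj2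
  have h2 := hN j ((le_max_left _ _).trans hj)
  have hl : 0 < Real.log j := Real.log_pos (by linarith)
  have h3 : 0 ≤ Real.log (T j) := Real.log_natCast_nonneg _
  rw [Real.dist_eq, sub_zero, abs_of_nonneg (by positivity), div_lt_iff₀ hl]
  rcases Nat.eq_zero_or_pos (T j) with h4 | h4
  · rw [h4]
    simp only [Nat.cast_zero, Real.log_zero]
    positivity
  · have h5 : Real.log (T j) < Real.log ((j : ℝ) ^ (ε / 2)) :=
      Real.log_lt_log (by exact_mod_cast h4) h2
    rw [Real.log_rpow (by linarith)] at h5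
    nlinarith

lemma le_of_small {T : ℕ → ℕ} (h : Small T) {κ : ℝ} (hκ : 0 < κ) : ∀ᶠ j : ℕ in atTop, (T j : ℝ) ≤ (j : ℝ) ^ κ := by
  filter_upwards [h.eventually_lt_const hκ, eventually_ge_atTop 2] with j hj hj2
  have hjr : (2 : ℝ) ≤ j := by exact_mod_cast hj2
  have hl : 0 < Real.log j := Real.log_pos (by linarith)
  rw [div_lt_iff₀ hl] at hj
  rcases Nat.eq_zero_or_pos (T j) with h4 | h4
  · rw [h4]
    simp only [Nat.cast_zero]
    positivity
  · rw [← Real.log_le_log_iff (by exact_mod_cast h4) (by positivity), Real.log_rpow (by linarith)]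
    exact hj.le

end aux

/-- **Shanks' conjecture in the random models with a sieve.** For every level `T` a model exists.
Let `T` be subexponential. (1) Almost surely `S` is infinite, all run lengths occur and
`log p_S(g) ≤ (1 + ε) √g` for all large `g`. (2) If `T j = j ^ o(1)`, then almost surely
`log p_S(g) / √g → 1`. (3) Otherwise there is `δ > 0` such that almost surely
`log p_S(g) ≤ (1 - δ) √g` for infinitely many `g`. (4) For every `α > 0` there is `δ > 0` such that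
`T j ≥ j ^ α` for all large `j` implies almost surely `log p_S(g) ≤ (1 - δ) √g` for all large `g`.
(5) For every `δ > 0` there is `κ > 0` such that `T j ≤ j ^ κ` for all large `j` implies almost surely
`log p_S(g) ≥ (1 - δ) √g` for all large `g`. -/
theorem result :
    (∀ T : ℕ → ℕ, ∃ (P : Measure (ℕ → Bool)) (_ : IsProbabilityMeasure P) (A : ℕ → Set (ℕ → Bool)), Model T P A) ∧
    (∀ T : ℕ → ℕ, Subexponential T →
      AlmostSurely T (fun S => S.Infinite ∧ (∀ᶠ g : ℕ in atTop, Occurs S g) ∧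
        ∀ ε : ℝ, 0 < ε → ∀ᶠ g : ℕ in atTop, ratio S g ≤ 1 + ε)) ∧
    (∀ T : ℕ → ℕ, Subexponential T → Small T → AlmostSurely T (fun S => Tendsto (ratio S) atTop (𝓝 1))) ∧
    (∀ T : ℕ → ℕ, Subexponential T → ¬ Small T → ∃ δ : ℝ, 0 < δ ∧
      AlmostSurely T (fun S => ∃ᶠ g : ℕ in atTop, ratio S g ≤ 1 - δ)) ∧
    (∀ α : ℝ, 0 < α → ∃ δ : ℝ, 0 < δ ∧ ∀ T : ℕ → ℕ, Subexponential T → (∀ᶠ j : ℕ in atTop, (j : ℝ) ^ α ≤ T j) →
      AlmostSurely T (fun S => ∀ᶠ g : ℕ in atTop, ratio S g ≤ 1 - δ)) ∧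
    (∀ δ : ℝ, 0 < δ → ∃ κ : ℝ, 0 < κ ∧ ∀ T : ℕ → ℕ, Subexponential T → (∀ᶠ j : ℕ in atTop, (T j : ℝ) ≤ (j : ℝ) ^ κ) →
      AlmostSurely T (fun S => ∀ᶠ g : ℕ in atTop, 1 - δ ≤ ratio S g)) := by
  open Pool.Agent.K4H19.GM in
  -- part (1)
  have part1 : ∀ T : ℕ → ℕ, Subexponential T →
      AlmostSurely T (fun S => S.Infinite ∧ (∀ᶠ g : ℕ in atTop, Occurs S g) ∧
        ∀ ε : ℝ, 0 < ε → ∀ᶠ g : ℕ in atTop, ratio S g ≤ 1 + ε) := by
    intro T hT Ω _ P _ A hA
    have hA' := model_iff hA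
    have h1 : ∀ᵐ ω ∂P, ∀ i : ℕ, ∀ᶠ g : ℕ in atTop,
        (∃ k : ℕ, Nat.nth (· ∈ Pool.Agent.K4H77.Noise.rset A ω) k + g <
          Nat.nth (· ∈ Pool.Agent.K4H77.Noise.rset A ω) (k + 1)) ∧
        (Real.log (Pool.Agent.K4H77.Noise.firstAfter (Pool.Agent.K4H77.Noise.rset A ω) g)) ^ 2 / g ≤
          (1 + 1 / ((i : ℝ) + 1)) ^ 2 := by
      rw [ae_all_iff]
      intro i
      have hi : (0 : ℝ) < 1 / ((i : ℝ) + 1) := by positivity
      exact ae_first_all hT P hA' (θ := 1 + 1 / ((i : ℝ) + 1)) (by linarith)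
        (fun η c hη hc => pack_avg hT hi hη hc) (by nlinarith)
    filter_upwards [ae_basic hT P hA', h1] with ω hb hω
    refine ⟨hb.1, (hω 0).mono fun g hg => hg.1, ?_⟩
    intro ε hε
    obtain ⟨i, hi⟩ := exists_nat_one_div_lt hε
    filter_upwards [hω i, eventually_ge_atTop 1] with g hg hg1
    have := ratio_le (a := 1 + 1 / ((i : ℝ) + 1)) (by positivity) hg1 hg.2
    have e : ratio {n | ω ∈ A n} g = ratio (Pool.Agent.K4H77.Noise.rset A ω) g := rfl
    rw [e]
    linarith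
  -- part (5)
  have part5 : ∀ δ : ℝ, 0 < δ → ∃ κ : ℝ, 0 < κ ∧ ∀ T : ℕ → ℕ, Subexponential T →
      (∀ᶠ j : ℕ in atTop, (T j : ℝ) ≤ (j : ℝ) ^ κ) →
      AlmostSurely T (fun S => ∀ᶠ g : ℕ in atTop, 1 - δ ≤ ratio S g) := by
    intro δ hδ
    set d : ℝ := min δ (1 / 2) with hd
    have hd0 : 0 < d := lt_min hδ (by norm_num)
    have hd1 : d ≤ 1 / 2 := min_le_right _ _
    have hdδ : d ≤ δ := min_le_left _ _
    obtain ⟨κ, hκ, h⟩ := Pool.Agent.K4H19.GM.ae_first_ge (D := (1 - d) ^ 2) (by nlinarith)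
    refine ⟨κ, hκ, fun T hT hTκ Ω _ P _ A hA => ?_⟩
    filter_upwards [h T hT hTκ Ω _ P inferInstance A (model_iff hA)] with ω hω
    filter_upwards [hω, eventually_ge_atTop 1] with g hg hg1
    have := le_ratio hg1 hg
    have e : ratio {n | ω ∈ A n} g = ratio (Pool.Agent.K4H77.Noise.rset A ω) g := rfl
    rw [e]
    linarith
  refine ⟨fun T => ?_, part1, ?_, ?_, ?_, part5⟩
  · obtain ⟨P, hP, A, hA⟩ := Pool.Agent.K4H19.GM.exists_granville T
    exact ⟨P, hP, A, hA.meas, hA.indep, hA.prob⟩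
  · -- part (2)
    intro T hT hS Ω _ P _ A hA
    have h1 : ∀ᵐ ω ∂P, ∀ i : ℕ, ∀ᶠ g : ℕ in atTop, 1 - 1 / ((i : ℝ) + 1) ≤ ratio {n | ω ∈ A n} g := by
      rw [ae_all_iff]
      intro i
      obtain ⟨κ, hκ, h⟩ := part5 (1 / ((i : ℝ) + 1)) (by positivity)
      exact h T hT (le_of_small hS hκ) Ω _ P inferInstance A hA
    filter_upwards [part1 T hT Ω _ P inferInstance A hA, h1] with ω h2 h3
    rw [Metric.tendsto_atTop]
    intro ε hε
    obtain ⟨i, hi⟩ := exists_nat_one_div_lt hε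
    obtain ⟨N, hN⟩ := eventually_atTop.1 ((h2.2.2 (ε / 2) (by positivity)).and (h3 i))
    refine ⟨N, fun g hg => ?_⟩
    obtain ⟨h4, h5⟩ := hN g hg
    rw [Real.dist_eq, abs_lt]
    constructor <;> linarith
  · -- part (3)
    intro T hT hS
    obtain ⟨α, hα, hfr⟩ := small_of_le hS
    obtain ⟨δ, hδ0, hδ1, h⟩ := Pool.Agent.K4H19.GM.pack_def hα
    refine ⟨δ / 4, by positivity, fun Ω _ P _ A hA => ?_⟩
    have h1 := Pool.Agent.K4H19.GM.ae_first_freq hT P (model_iff hA) (θ := 1 - δ) (by linarith)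
      (fun j => (j : ℝ) ^ α ≤ T j) hfr (fun η c hη hc => h T hT η c hη hc)
      (D := (1 - δ / 4) ^ 2) (by nlinarith)
    filter_upwards [h1] with ω hω
    refine (hω.and_eventually (eventually_ge_atTop 1)).mono fun g hg => ?_
    exact ratio_le (by linarith) hg.2 hg.1.2
  · -- part (4)
    intro α hα
    obtain ⟨δ, hδ0, hδ1, h⟩ := Pool.Agent.K4H19.GM.pack_def hα
    refine ⟨δ / 4, by positivity, fun T hT hTα Ω _ P _ A hA => ?_⟩
    have h1 := Pool.Agent.K4H19.GM.ae_first_all hT P (model_iff hA) (θ := 1 - δ) (by linarith)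
      (fun η c hη hc => by
        filter_upwards [h T hT η c hη hc, hTα] with j hj hj2
        exact hj hj2) (D := (1 - δ / 4) ^ 2) (by nlinarith)
    filter_upwards [h1] with ω hω
    filter_upwards [hω, eventually_ge_atTop 1] with g hg hg1
    exact ratio_le (by linarith) hg1 hg.2

end Pool.Agent.Results.MP_926cc3_nt.SievedRandomModels
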